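import Pool.Agent.H97.HV.Targets6
import Pool.Agent.H97.HV.WDefs

/-!
# MP_e37c09_lc, HV part 6, module DM: the image of the measure under the minimal function
-/

open Ordinal Cardinal Order Set
open scoped ZFSet

universe u

namespace Pool.Agent.H50.HV.DM

open _root_.HD HD.PRK HD.HV HD.HW

/-- the value of `f` at `b` -/
noncomputable def vl (f : ZFSet.{u}) (b : Ordinal.{u}) : Ordinal.{u} :=
  sInf {d | ZFSet.pair b.toZFSet d.toZFSet ∈ f}

theorem vl_spec {κ : Ordinal.{u}} {f : ZFSet.{u}} (hf : ZFSet.IsFunc κ.toZFSet κ.toZFSet f)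
    {b : Ordinal.{u}} (hb : b < κ) :
    vl f b < κ ∧ ∀ w, ZFSet.pair b.toZFSet w ∈ f ↔ w = (vl f b).toZFSet := by
  obtain ⟨w, hw, hu⟩ := hf.2 b.toZFSet (toZFSet_mem_toZFSet_iff.2 hb)
  have h1 : w ∈ κ.toZFSet := (ZFSet.pair_mem_prod.1 (hf.1 hw)).2
  obtain ⟨d, hd, rfl⟩ := mem_toZFSet_iff.1 h1
  have h2 : {e : Ordinal.{u} | ZFSet.pair b.toZFSet e.toZFSet ∈ f} = {d} := by
    ext e
    rw [mem_singleton_iff]
    constructor
    · intro he
      exact toZFSet_injective (hu _ he)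
    · rintro rfl
      exact hw
  have h3 : vl f b = d := by
    unfold vl
    rw [h2, csInf_singleton]
  rw [h3]
  refine ⟨hd, fun w => ⟨fun h => hu _ h, ?_⟩⟩
  rintro rfl
  exact hw

theorem nv_os {g κ : Ordinal.{u}} (hg : IsSuccLimit g)
    {P : ZFSet.{u} → ZFSet.{u} → ZFSet.{u} → ZFSet.{u} → Prop}
    (hP : DZ fun v => P (v 0) (v 1) (v 2) (v 3)) {p q r : ZFSet.{u}} (hp : NV g p)
    (hq : NV g q) (hr : NV g r) {S : Set Ordinal.{u}}
    (h : ∀ b < κ, (b ∈ S ↔ P b.toZFSet p q r)) : NV g (os κ S) := by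
  refine nv_of hg (P := fun z p q r => z ∈ κ.toZFSet ∧ P z p q r) ?_ hp hq hr
    (fun z => ?_) fun z hz => ?_
  · exact (DZ.od (R := fun k v => v 0 ∈ k) (OD.ordinal κ) (DZ.mem 1 0)).and hP
  · rw [mem_os]
    constructor
    · rintro ⟨a, ha, haS, rfl⟩
      exact ⟨toZFSet_mem_toZFSet_iff.2 ha, (h a ha).1 haS⟩
    · rintro ⟨hz, hP'⟩
      obtain ⟨a, ha, rfl⟩ := mem_toZFSet_iff.1 hz
      exact ⟨a, ha, (h a ha).2 hP', rfl⟩
  · obtain ⟨a, -, -, rfl⟩ := mem_os.1 hz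
    exact nv_ord hg a

theorem os_sub {κ : Ordinal.{u}} {S : Set Ordinal.{u}} : os κ S ⊆ κ.toZFSet := by
  intro z hz
  obtain ⟨a, ha, -, rfl⟩ := mem_os.1 hz
  exact toZFSet_mem_toZFSet_iff.2 ha

/-- a set which is definable from `U` and a set which is definable from `U` -/
theorem odp_comp {U f g : ZFSet.{u}} (hf : NF.ODp U f) {Z : ZFSet.{u} → ZFSet.{u} → ZFSet.{u} → Prop}
    (hZ : DZ fun v => Z (v 0) (v 1) (v 2)) (h : ∀ z, z ∈ g ↔ Z z f U) : NF.ODp U g := by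
  obtain ⟨Q, hQ, hQ2⟩ := Pool.Agent.H45.NF.ODp.def hf
  refine Pool.Agent.H45.NF.ODp.of_dz (Q := fun v => ∃ a, Q (cons a fun _ => v 1) ∧
    ∀ z, (z ∈ v 0 ↔ Z z a (v 1))) ?_ fun y => ?_
  · refine DZ.ex (R := fun a v => Q (cons a fun _ => v 1) ∧ ∀ z, (z ∈ v 0 ↔ Z z a (v 1))) ?_
    refine DZ.and ?_ ?_
    · refine (hQ.ren fun n => Nat.casesOn n 0 fun _ => 2).congr fun v => ?_
      have h2 : (fun n => v (Nat.casesOn n 0 fun _ => 2)) = cons (v 0) fun _ => v 2 := by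
        funext n
        cases n <;> rfl
      rw [h2]
    · refine DZ.all (R := fun z v => (z ∈ v 1 ↔ Z z (v 0) (v 2))) ?_
      refine (DZ.mem 0 2).iff ?_
      exact hZ.ren fun n => if n = 0 then 0 else if n = 1 then 1 else 3
  · constructor
    · rintro ⟨a, ha, hz⟩
      obtain rfl := (hQ2 a).1 ha
      ext z
      rw [h z]
      exact hz z
    · rintro rfl
      exact ⟨f, (hQ2 f).2 rfl, h⟩

theorem nv_fun {g κ : Ordinal.{u}} (hg : IsSuccLimit g) {U f : ZFSet.{u}} (hU : NV g U)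
    (hf : NF.ODp U f) (hfun : ZFSet.IsFunc κ.toZFSet κ.toZFSet f) : NV g f := by
  refine nv_iff.2 ⟨?_, fun z hz => ?_⟩
  · obtain ⟨Q, hQ, hQ2⟩ := Pool.Agent.H45.NF.ODp.def hf
    refine Pool.Agent.H14.HV.pf_PVA.2.2.1 g hg U U f (nv_iff.1 hU).1 (nv_iff.1 hU).1 ?_
    refine Pool.Agent.H45.NF.ODp.of_dz
      (Q := fun v => ∃ a, v 1 = ZFSet.pair a a ∧ Q (cons (v 0) fun _ => a)) ?_ fun y => ?_
    · refine DZ.ex (R := fun a v => v 1 = ZFSet.pair a a ∧ Q (cons (v 0) fun _ => a)) ?_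
      refine (loc_pair 2 0 0).dz.and ?_
      refine (hQ.ren fun n => Nat.casesOn n 1 fun _ => 0).congr fun v => ?_
      have h2 : (fun n => v (Nat.casesOn n 1 fun _ => 0)) = cons (v 1) fun _ => v 0 := by
        funext n
        cases n <;> rfl
      rw [h2]
    · constructor
      · rintro ⟨a, ha, hQa⟩
        have ha' : ZFSet.pair U U = ZFSet.pair a a := ha
        obtain ⟨rfl, -⟩ := ZFSet.pair_injective ha'
        exact (hQ2 y).1 hQa
      · rintro rfl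
        exact ⟨U, rfl, (hQ2 _).2 rfl⟩
  · obtain ⟨a, ha, b, hb, rfl⟩ := ZFSet.mem_prod.1 (hfun.1 hz)
    obtain ⟨a, -, rfl⟩ := mem_toZFSet_iff.1 ha
    obtain ⟨b, -, rfl⟩ := mem_toZFSet_iff.1 hb
    exact nv_pair hg (nv_ord hg a) (nv_ord hg b)

/-- a set of ordinals described by the values of `f` -/
theorem w_eq {κ : Ordinal.{u}} {f : ZFSet.{u}} (hf : ZFSet.IsFunc κ.toZFSet κ.toZFSet f)
    (T : ZFSet.{u} → Prop) (w : ZFSet.{u}) :
    (∀ b, b ∈ w ↔ b ∈ κ.toZFSet ∧ ∃ d, ZFSet.pair b d ∈ f ∧ T d) ↔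
      w = os κ {b | T (vl f b).toZFSet} := by
  have key : ∀ b, b ∈ os κ {b | T (vl f b).toZFSet} ↔
      b ∈ κ.toZFSet ∧ ∃ d, ZFSet.pair b d ∈ f ∧ T d := by
    intro z
    rw [mem_os]
    constructor
    · rintro ⟨a, ha, haT, rfl⟩
      exact ⟨toZFSet_mem_toZFSet_iff.2 ha, _, ((vl_spec hf ha).2 _).2 rfl, haT⟩
    · rintro ⟨hz, d, hd, hT⟩
      obtain ⟨a, ha, rfl⟩ := mem_toZFSet_iff.1 hz
      obtain rfl := ((vl_spec hf ha).2 _).1 hd
      exact ⟨a, ha, hT, rfl⟩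
  constructor
  · intro h
    ext z
    rw [h z, key z]
  · rintro rfl z
    exact key z

/-! ## The measure -/

section

variable {γ κ : Ordinal.{u}} {U : ZFSet.{u}}

theorem u_mono (hU : CMeas (NV γ) κ U) {S T : Set Ordinal.{u}} (hS : os κ S ∈ U)
    (hT : NV γ (os κ T)) (h : ∀ b < κ, b ∈ S → b ∈ T) : os κ T ∈ U := by
  refine hU.up _ hS _ hT (fun z hz => ?_) os_sub
  obtain ⟨a, ha, haS, rfl⟩ := mem_os.1 hz
  exact ord_mem_os.2 ⟨ha, h a ha haS⟩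

theorem u_compl (hU : CMeas (NV γ) κ U) {S : Set Ordinal.{u}} (hS : NV γ (os κ S))
    (h : os κ S ∉ U) : os κ Sᶜ ∈ U := by
  have h1 : κ.toZFSet \ os κ S = os κ Sᶜ := by
    ext z
    rw [ZFSet.mem_sdiff, mem_os, mem_os]
    constructor
    · rintro ⟨hz, hn⟩
      obtain ⟨a, ha, rfl⟩ := mem_toZFSet_iff.1 hz
      exact ⟨a, ha, fun haS => hn ⟨a, ha, haS, rfl⟩, rfl⟩
    · rintro ⟨a, ha, haS, rfl⟩
      refine ⟨toZFSet_mem_toZFSet_iff.2 ha, ?_⟩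
      rintro ⟨b, hb, hbS, he⟩
      obtain rfl := toZFSet_injective he
      exact haS hbS
  by_contra h2
  rw [← h1] at h2
  exact h ((hU.ultra _ hS os_sub).2 h2)

end

/-! ## Functions -/

theorem ub_eq {κ : Ordinal.{u}} {f : ZFSet.{u}} (hf : ZFSet.IsFunc κ.toZFSet κ.toZFSet f)
    (c : Ordinal.{u}) :
    (κ.toZFSet).sep (fun b => ∀ d : Ordinal.{u}, ZFSet.pair b d.toZFSet ∈ f → c < d) =
      os κ {b | c < vl f b} := by
  ext z
  rw [ZFSet.mem_sep, mem_os]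
  constructor
  · rintro ⟨hz, h⟩
    obtain ⟨a, ha, rfl⟩ := mem_toZFSet_iff.1 hz
    exact ⟨a, ha, h _ (((vl_spec hf ha).2 _).2 rfl), rfl⟩
  · rintro ⟨a, ha, haS, rfl⟩
    refine ⟨toZFSet_mem_toZFSet_iff.2 ha, fun d hd => ?_⟩
    have h1 : d = vl f a := toZFSet_injective (((vl_spec hf ha).2 _).1 hd)
    rw [h1]
    exact haS

theorem lt_eq {κ : Ordinal.{u}} {f g : ZFSet.{u}} (hf : ZFSet.IsFunc κ.toZFSet κ.toZFSet f)
    (hg : ZFSet.IsFunc κ.toZFSet κ.toZFSet g) :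
    (κ.toZFSet).sep (fun b => ∀ c d : Ordinal.{u}, ZFSet.pair b c.toZFSet ∈ g →
      ZFSet.pair b d.toZFSet ∈ f → c < d) = os κ {b | vl g b < vl f b} := by
  ext z
  rw [ZFSet.mem_sep, mem_os]
  constructor
  · rintro ⟨hz, h⟩
    obtain ⟨a, ha, rfl⟩ := mem_toZFSet_iff.1 hz
    exact ⟨a, ha, h _ _ (((vl_spec hg ha).2 _).2 rfl) (((vl_spec hf ha).2 _).2 rfl), rfl⟩
  · rintro ⟨a, ha, haS, rfl⟩
    refine ⟨toZFSet_mem_toZFSet_iff.2 ha, fun c d hc hd => ?_⟩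
    have h1 : d = vl f a := toZFSet_injective (((vl_spec hf ha).2 _).1 hd)
    have h2 : c = vl g a := toZFSet_injective (((vl_spec hg ha).2 _).1 hc)
    rw [h1, h2]
    exact haS

/-- the least element of `d` with the property `¬ B` -/
theorem least_iff (d : Ordinal.{u}) (B : Ordinal.{u} → Prop) (c : Ordinal.{u}) :
    c = sInf {η | η < d ∧ ¬ B η} ↔
      (c < d ∧ ¬ B c ∧ ∀ e < c, B e) ∨ ((∀ e < d, B e) ∧ c = 0) := by
  by_cases hne : ({η | η < d ∧ ¬ B η} : Set Ordinal.{u}).Nonempty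
  · have h1 := csInf_mem hne
    constructor
    · rintro rfl
      refine Or.inl ⟨h1.1, h1.2, fun e he => ?_⟩
      by_contra hB
      exact absurd (csInf_le' (show e ∈ {η | η < d ∧ ¬ B η} from ⟨he.trans h1.1, hB⟩))
        (not_le.2 he)
    · rintro (⟨h2, h3, h4⟩ | ⟨h2, -⟩)
      · refine le_antisymm ?_ (csInf_le' (show c ∈ {η | η < d ∧ ¬ B η} from ⟨h2, h3⟩))
        by_contra h5
        exact h1.2 (h4 _ (not_le.1 h5))
      · exact absurd (h2 _ h1.1) h1.2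
  · have h1 : ({η | η < d ∧ ¬ B η} : Set Ordinal.{u}) = ∅ := Set.not_nonempty_iff_eq_empty.1 hne
    have h2 : ∀ e < d, B e := fun e he => by
      by_contra hB
      exact hne ⟨e, he, hB⟩
    rw [h1, Ordinal.sInf_empty]
    constructor
    · rintro rfl
      exact Or.inr ⟨h2, rfl⟩
    · rintro (⟨h3, h4, -⟩ | ⟨-, h3⟩)
      · exact absurd (h2 _ h3) h4
      · exact h3

/-- `e` is an index for which the set of the preimages is in `U` -/
def AAf (R : ZFSet.{u} → ZFSet.{u} → Prop) (k U f e : ZFSet.{u}) : Prop :=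
  ∃ w, w ∈ U ∧ ∀ b, (b ∈ w ↔ b ∈ k ∧ ∃ d, ZFSet.pair b d ∈ f ∧ R d e)

theorem dz_AA {R : ZFSet.{u} → ZFSet.{u} → Prop} (hR : DZ fun v => R (v 0) (v 1)) :
    DZ fun v => AAf R (v 0) (v 1) (v 2) (v 3) := by
  refine DZ.ex (R := fun w v => w ∈ v 1 ∧ ∀ b, (b ∈ w ↔ b ∈ v 0 ∧ ∃ d,
    ZFSet.pair b d ∈ v 2 ∧ R d (v 3))) ?_
  -- 0 w, 1 k, 2 U, 3 f, 4 e
  refine (DZ.mem 0 2).and ?_
  refine DZ.all (R := fun b v => (b ∈ v 0 ↔ b ∈ v 1 ∧ ∃ d, ZFSet.pair b d ∈ v 3 ∧ R d (v 4))) ?_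
  -- 0 b, 1 w, 2 k, 3 U, 4 f, 5 e
  refine (DZ.mem 0 1).iff ((DZ.mem 0 2).and ?_)
  refine DZ.ex (R := fun d v => ZFSet.pair (v 0) d ∈ v 4 ∧ R d (v 5)) ?_
  exact (loc_pmem 1 0 5).dz.and (hR.ren fun n => if n = 0 then 0 else 6)


/-! ## The image measure -/

/-- the preimage of `x` -/
noncomputable def pre (κ : Ordinal.{u}) (f x : ZFSet.{u}) : ZFSet.{u} :=
  os κ {b | (vl f b).toZFSet ∈ x}

/-- the image of `U` under `f` -/
noncomputable def U1 (γ κ : Ordinal.{u}) (U f : ZFSet.{u}) : ZFSet.{u} :=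
  ZFSet.sep (fun x => NV γ x ∧ pre κ f x ∈ U) (ZFSet.powerset κ.toZFSet)

theorem mem_U1 {γ κ : Ordinal.{u}} {U f x : ZFSet.{u}} :
    x ∈ U1 γ κ U f ↔ x ⊆ κ.toZFSet ∧ NV γ x ∧ pre κ f x ∈ U := by
  unfold U1
  rw [ZFSet.mem_sep, ZFSet.mem_powerset]

theorem nv_vl {γ κ : Ordinal.{u}} (hγ : IsSuccLimit γ) {f : ZFSet.{u}} (hNf : NV γ f)
    (hf : ZFSet.IsFunc κ.toZFSet κ.toZFSet f) {T : ZFSet.{u} → ZFSet.{u} → Prop}
    (hT : DZ fun v => T (v 0) (v 1)) {p : ZFSet.{u}} (hp : NV γ p) :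
    NV γ (os κ {b | T (vl f b).toZFSet p}) := by
  refine nv_os hγ (P := fun z f p _ => ∃ d, ZFSet.pair z d ∈ f ∧ T d p) ?_ hNf hp hp
    fun b hb => ?_
  · refine DZ.ex (R := fun d v => ZFSet.pair (v 0) d ∈ v 1 ∧ T d (v 2)) ?_
    exact (loc_pmem 1 0 2).dz.and (hT.ren fun n => if n = 0 then 0 else 3)
  · constructor
    · intro h
      exact ⟨_, ((vl_spec hf hb).2 _).2 rfl, h⟩
    · rintro ⟨d, hd, h⟩
      obtain rfl := ((vl_spec hf hb).2 _).1 hd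
      exact h

theorem cm_U1 (hNM : T_NM2.{u}) {γ : Ordinal.{u}} (hγ : IsSuccLimit γ) {K : Cardinal.{u}}
    (hK0 : ℵ₀ < K) {U f : ZFSet.{u}} (hU : CMeas (NV γ) K.ord U) (hf : UBf K.ord U f) :
    CMeas (NV γ) K.ord (U1 γ K.ord U f) := by
  obtain ⟨hfp, hfun, hfub⟩ := hf
  obtain ⟨hint, hunb⟩ := hNM γ hγ K hK0 U hU
  have hlim : IsSuccLimit K.ord := Cardinal.isSuccLimit_ord hK0.le
  have hκ0 : 0 < K.ord := hlim.bot_lt
  have hN : NV γ U := hU.inN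
  have hNf : NV γ f := nv_fun hγ hN hfp hfun
  have hNk : NV γ K.ord.toZFSet := nv_ord hγ _
  have hpre : ∀ x, NV γ x → NV γ (pre K.ord f x) := fun x hx =>
    nv_vl hγ hNf hfun (T := fun d x => d ∈ x) (DZ.mem 0 1) hx
  have hdiff : ∀ x, NV γ x → NV γ (K.ord.toZFSet \ x) := by
    intro x hx
    refine nv_of hγ (P := fun z k x _ => z ∈ k ∧ z ∉ x) ((DZ.mem 0 1).and (DZ.mem 0 2).not)
      hNk hx hx (fun z => ZFSet.mem_sdiff) fun z hz => ?_
    obtain ⟨a, -, rfl⟩ := mem_toZFSet_iff.1 (ZFSet.mem_sdiff.1 hz).1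
    exact nv_ord hγ a
  refine ⟨?_, ?_, ?_, ?_, ?_, ?_⟩
  · -- inN
    refine nv_of hγ (P := fun z U f k => z ⊆ k ∧ NV γ z ∧ ∃ w, w ∈ U ∧
      ∀ b, (b ∈ w ↔ b ∈ k ∧ ∃ d, ZFSet.pair b d ∈ f ∧ d ∈ z)) ?_ hN hNf hNk (fun z => ?_)
      fun z hz => (mem_U1.1 hz).2.1
    · refine (Loc.sub 0 3).dz.and ((dz_nv γ 0).and ?_)
      refine DZ.ex (R := fun w v => w ∈ v 1 ∧
        ∀ b, (b ∈ w ↔ b ∈ v 3 ∧ ∃ d, ZFSet.pair b d ∈ v 2 ∧ d ∈ v 0)) ?_
      -- 0 w, 1 z, 2 U, 3 f, 4 k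
      refine (DZ.mem 0 2).and ?_
      refine DZ.all (R := fun b v => (b ∈ v 0 ↔ b ∈ v 4 ∧ ∃ d, ZFSet.pair b d ∈ v 3 ∧ d ∈ v 1)) ?_
      -- 0 b, 1 w, 2 z, 3 U, 4 f, 5 k
      refine (DZ.mem 0 1).iff ((DZ.mem 0 5).and ?_)
      refine DZ.ex (R := fun d v => ZFSet.pair (v 0) d ∈ v 4 ∧ d ∈ v 2) ?_
      exact (loc_pmem 1 0 5).dz.and (DZ.mem 0 3)
    · rw [mem_U1]
      refine and_congr_right fun _ => and_congr_right fun _ => ?_
      constructor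
      · intro h
        exact ⟨_, h, (w_eq hfun (fun d => d ∈ z) _).2 rfl⟩
      · rintro ⟨w, hw, h⟩
        have h3 := (w_eq hfun (fun d => d ∈ z) w).1 h
        rw [h3] at hw
        exact hw
  · -- sub
    intro x hx
    exact (mem_U1.1 hx).1
  · -- ultra
    intro x hx hxκ
    have h1 : pre K.ord f (K.ord.toZFSet \ x) = K.ord.toZFSet \ pre K.ord f x := by
      ext z
      unfold pre
      rw [mem_os, ZFSet.mem_sdiff, mem_os]
      constructor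
      · rintro ⟨a, ha, haS, rfl⟩
        refine ⟨toZFSet_mem_toZFSet_iff.2 ha, ?_⟩
        rintro ⟨b, hb, hbS, he⟩
        obtain rfl := toZFSet_injective he
        have h5 : (vl f a).toZFSet ∈ K.ord.toZFSet \ x := haS
        exact (ZFSet.mem_sdiff.1 h5).2 hbS
      · rintro ⟨hz, hn⟩
        obtain ⟨a, ha, rfl⟩ := mem_toZFSet_iff.1 hz
        refine ⟨a, ha, ?_, rfl⟩
        show (vl f a).toZFSet ∈ K.ord.toZFSet \ x
        exact ZFSet.mem_sdiff.2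
          ⟨toZFSet_mem_toZFSet_iff.2 (vl_spec hfun ha).1, fun h => hn ⟨a, ha, h, rfl⟩⟩
    have h2 := hU.ultra _ (hpre x hx) os_sub
    constructor
    · intro h3 h4
      have h5 := (mem_U1.1 h4).2.2
      rw [h1] at h5
      exact h2.1 (mem_U1.1 h3).2.2 h5
    · intro h3
      refine mem_U1.2 ⟨hxκ, hx, h2.2 fun h4 => h3 (mem_U1.2 ⟨fun z hz =>
        (ZFSet.mem_sdiff.1 hz).1, hdiff x hx, ?_⟩)⟩
      rw [h1]
      exact h4
  · -- up
    intro x hx y hy hxy hyκ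
    obtain ⟨h1, h2, h3⟩ := mem_U1.1 hx
    refine mem_U1.2 ⟨hyκ, hy, u_mono hU h3 (hpre y hy) fun b _ hb => ?_⟩
    have h4 : (vl f b).toZFSet ∈ x := hb
    exact hxy h4
  · -- nonpr
    intro a ha h
    have h1 := (mem_U1.1 h).2.2
    have h2 := hfub a ha
    rw [ub_eq hfun] at h2
    obtain ⟨b, -, -, hb⟩ := hunb _ (hint _ h1 _ h2) 0 hκ0
    obtain ⟨hb1, hb2⟩ := ZFSet.mem_inter.1 hb
    have h3 : (vl f b).toZFSet ∈ ({a.toZFSet} : ZFSet.{u}) := (ord_mem_os.1 hb1).2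
    have h4 : a < vl f b := (ord_mem_os.1 hb2).2
    have h5 : vl f b = a := toZFSet_injective (ZFSet.mem_singleton.1 h3)
    rw [h5] at h4
    exact lt_irrefl _ h4
  · -- compl
    intro τ hτ G hG hGf
    set D := (K.ord.toZFSet).sep (fun b => ∀ a x, ZFSet.pair a x ∈ G → b ∈ x) with hD
    set G' := ZFSet.sep (fun z => ∃ a x, ZFSet.pair a x ∈ G ∧ z = ZFSet.pair a (pre K.ord f x))
      (ZFSet.prod τ.toZFSet U) with hG'
    have hGm : ∀ a x, ZFSet.pair a x ∈ G → a ∈ τ.toZFSet ∧ x ∈ U1 γ K.ord U f := fun a x h =>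
      ZFSet.pair_mem_prod.1 (hGf.1 h)
    have mem_G' : ∀ z, z ∈ G' ↔ ∃ a x, ZFSet.pair a x ∈ G ∧
        z = ZFSet.pair a (pre K.ord f x) := by
      intro z
      rw [hG', ZFSet.mem_sep]
      refine ⟨fun h => h.2, fun h => ⟨?_, h⟩⟩
      obtain ⟨a, x, h1, rfl⟩ := h
      exact ZFSet.pair_mem_prod.2 ⟨(hGm a x h1).1, (mem_U1.1 (hGm a x h1).2).2.2⟩
    have hG'N : NV γ G' := by
      refine nv_of hγ (P := fun z G f k => ∃ a x w, ZFSet.pair a x ∈ G ∧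
        (∀ b, (b ∈ w ↔ b ∈ k ∧ ∃ d, ZFSet.pair b d ∈ f ∧ d ∈ x)) ∧ z = ZFSet.pair a w)
        ?_ hG hNf hNk (fun z => ?_) fun z hz => ?_
      · refine DZ.ex (R := fun a v => ∃ x w, ZFSet.pair a x ∈ v 1 ∧
          (∀ b, (b ∈ w ↔ b ∈ v 3 ∧ ∃ d, ZFSet.pair b d ∈ v 2 ∧ d ∈ x)) ∧
            v 0 = ZFSet.pair a w) ?_
        refine DZ.ex (R := fun x v => ∃ w, ZFSet.pair (v 0) x ∈ v 2 ∧
          (∀ b, (b ∈ w ↔ b ∈ v 4 ∧ ∃ d, ZFSet.pair b d ∈ v 3 ∧ d ∈ x)) ∧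
            v 1 = ZFSet.pair (v 0) w) ?_
        refine DZ.ex (R := fun w v => ZFSet.pair (v 1) (v 0) ∈ v 3 ∧
          (∀ b, (b ∈ w ↔ b ∈ v 5 ∧ ∃ d, ZFSet.pair b d ∈ v 4 ∧ d ∈ v 0)) ∧
            v 2 = ZFSet.pair (v 1) w) ?_
        -- 0 w, 1 x, 2 a, 3 z, 4 G, 5 f, 6 k
        refine (loc_pmem 2 1 4).dz.and (DZ.and ?_ (loc_pair 3 2 0).dz)
        refine DZ.all (R := fun b v => (b ∈ v 0 ↔ b ∈ v 6 ∧ ∃ d, ZFSet.pair b d ∈ v 5 ∧
          d ∈ v 1)) ?_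
        -- 0 b, 1 w, 2 x, 3 a, 4 z, 5 G, 6 f, 7 k
        refine (DZ.mem 0 1).iff ((DZ.mem 0 7).and ?_)
        refine DZ.ex (R := fun d v => ZFSet.pair (v 0) d ∈ v 6 ∧ d ∈ v 2) ?_
        exact (loc_pmem 1 0 7).dz.and (DZ.mem 0 3)
      · rw [mem_G']
        constructor
        · rintro ⟨a, x, h1, rfl⟩
          exact ⟨a, x, _, h1, (w_eq hfun (fun d => d ∈ x) _).2 rfl, rfl⟩
        · rintro ⟨a, x, w, h1, h2, rfl⟩
          have h3 := (w_eq hfun (fun d => d ∈ x) w).1 h2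
          refine ⟨a, x, h1, ?_⟩
          rw [h3]
          rfl
      · obtain ⟨a, x, h1, rfl⟩ := (mem_G' z).1 hz
        obtain ⟨h2, h3⟩ := nv_of_pair (nv_tra _ hG _ h1)
        exact nv_pair hγ h2 (hpre x h3)
    have hG'f : ZFSet.IsFunc τ.toZFSet U G' := by
      refine ⟨fun z hz => (ZFSet.mem_sep.1 hz).1, fun a ha => ?_⟩
      obtain ⟨x, hx, hu⟩ := hGf.2 a ha
      refine ⟨pre K.ord f x, (mem_G' _).2 ⟨a, x, hx, rfl⟩, fun y hy => ?_⟩
      obtain ⟨a', x', h1, h2⟩ := (mem_G' _).1 hy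
      obtain ⟨rfl, rfl⟩ := ZFSet.pair_injective h2
      rw [hu x' h1]
    have h1 := hU.compl τ hτ G' hG'N hG'f
    have hDN : NV γ D := by
      refine nv_of hγ (P := fun z k G _ => z ∈ k ∧ ∀ a x, ZFSet.pair a x ∈ G → z ∈ x) ?_
        hNk hG hG (fun z => ZFSet.mem_sep) fun z hz => ?_
      · refine (DZ.mem 0 1).and ?_
        refine DZ.all (R := fun a v => ∀ x, ZFSet.pair a x ∈ v 2 → v 0 ∈ x) ?_
        refine DZ.all (R := fun x v => ZFSet.pair (v 0) x ∈ v 3 → v 1 ∈ x) ?_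
        exact (loc_pmem 1 0 4).dz.imp (DZ.mem 2 0)
      · obtain ⟨a, -, rfl⟩ := mem_toZFSet_iff.1 (ZFSet.mem_sep.1 hz).1
        exact nv_ord hγ a
    refine mem_U1.2 ⟨fun z hz => (ZFSet.mem_sep.1 hz).1, hDN, ?_⟩
    have h2 : (K.ord.toZFSet).sep (fun b => ∀ a x, ZFSet.pair a x ∈ G' → b ∈ x) =
        pre K.ord f D := by
      ext z
      unfold pre
      rw [ZFSet.mem_sep, mem_os]
      constructor
      · rintro ⟨hz, h⟩
        obtain ⟨a, ha, rfl⟩ := mem_toZFSet_iff.1 hz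
        refine ⟨a, ha, ?_, rfl⟩
        show (vl f a).toZFSet ∈ D
        refine ZFSet.mem_sep.2 ⟨toZFSet_mem_toZFSet_iff.2 (vl_spec hfun ha).1,
          fun e x hx => ?_⟩
        exact (ord_mem_os.1 (h e _ ((mem_G' _).2 ⟨e, x, hx, rfl⟩))).2
      · rintro ⟨a, ha, haS, rfl⟩
        refine ⟨toZFSet_mem_toZFSet_iff.2 ha, fun e y hy => ?_⟩
        obtain ⟨e', x, h3, h4⟩ := (mem_G' _).1 hy
        obtain ⟨rfl, rfl⟩ := ZFSet.pair_injective h4
        have h5 : (vl f a).toZFSet ∈ D := haS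
        exact ord_mem_os.2 ⟨ha, (ZFSet.mem_sep.1 h5).2 _ _ h3⟩
    rw [← h2]
    exact h1

/-! ## Relations -/

/-- a relation of sets which extends a definable relation of ordinals -/
theorem rel_of {R : Ordinal.{u} → Ordinal.{u} → Prop} (hR : DR R) :
    ∃ R' : ZFSet.{u} → ZFSet.{u} → Prop, (DZ fun v => R' (v 0) (v 1)) ∧
      ∀ a b : Ordinal.{u}, R a b ↔ R' a.toZFSet b.toZFSet := by
  obtain ⟨Q, hQ, h⟩ := hR
  refine ⟨fun x y => Q (fun n => if n = 0 then x else y), ?_, fun a b => ?_⟩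
  · refine (hQ.ren fun n => if n = 0 then 0 else 1).congr fun v => ?_
    have h2 : (fun n => v (if n = 0 then 0 else 1)) = fun n => if n = 0 then v 0 else v 1 := by
      funext n
      split <;> rfl
    rw [h2]
  · have h3 := h (fun n => if n = 0 then a else b)
    have h4 : ov (fun n => if n = 0 then a else b) =
        fun n => if n = 0 then a.toZFSet else b.toZFSet := by
      funext n
      show (if n = 0 then a else b).toZFSet = _
      split <;> rfl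
    rw [h4] at h3
    exact h3

theorem dgn_U1 (hNM : T_NM2.{u}) {γ : Ordinal.{u}} (hγ : IsSuccLimit γ) {K : Cardinal.{u}}
    (hK0 : ℵ₀ < K) {U f : ZFSet.{u}} (hU : CMeas (NV γ) K.ord U) (hf : UBf K.ord U f)
    (hmin : ∀ g, UBf K.ord U g → ¬ LTf K.ord U g f)
    {R : Ordinal.{u} → Ordinal.{u} → Prop} (hR : DR R) :
    ∃ (A : Set Ordinal.{u}) (D : ZFSet.{u}), D ∈ U1 γ K.ord U f ∧
      ∀ b : Ordinal.{u}, b.toZFSet ∈ D → ∀ η < b, (R b η ↔ η ∈ A) := by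
  obtain ⟨hfp, hfun, hfub⟩ := hf
  obtain ⟨hint, hunb⟩ := hNM γ hγ K hK0 U hU
  have hlim : IsSuccLimit K.ord := Cardinal.isSuccLimit_ord hK0.le
  have hκ0 : 0 < K.ord := hlim.bot_lt
  have hN : NV γ U := hU.inN
  have hNf : NV γ f := nv_fun hγ hN hfp hfun
  have hNk : NV γ K.ord.toZFSet := nv_ord hγ _
  obtain ⟨R', hR', hRR⟩ := rel_of hR
  have inter : ∀ S T : Set Ordinal.{u}, os K.ord S ∈ U → os K.ord T ∈ U →
      os K.ord (S ∩ T) ∈ U := by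
    intro S T hS hT
    have h1 := hint _ hS _ hT
    have h2 : os K.ord S ∩ os K.ord T = os K.ord (S ∩ T) := by
      ext z
      rw [ZFSet.mem_inter, mem_os, mem_os, mem_os]
      constructor
      · rintro ⟨⟨a, ha, haS, rfl⟩, b, hb, hbT, he⟩
        obtain rfl := toZFSet_injective he
        exact ⟨a, ha, ⟨haS, hbT⟩, rfl⟩
      · rintro ⟨a, ha, haS, rfl⟩
        exact ⟨⟨a, ha, haS.1, rfl⟩, a, ha, haS.2, rfl⟩
    rw [h2] at h1
    exact h1
  have nonem : ∀ S : Set Ordinal.{u}, os K.ord S ∈ U → ∃ b < K.ord, b ∈ S := by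
    intro S hS
    obtain ⟨b, -, hb, hbS⟩ := hunb _ hS 0 hκ0
    exact ⟨b, hb, (ord_mem_os.1 hbS).2⟩
  set A : Set Ordinal.{u} := {η | os K.ord {b | R (vl f b) η} ∈ U} with hA
  have hAA : ∀ η : Ordinal.{u}, AAf R' K.ord.toZFSet U f η.toZFSet ↔ η ∈ A := by
    intro η
    have h1 : os K.ord {b | R (vl f b) η} = os K.ord {b | R' (vl f b).toZFSet η.toZFSet} := by
      have h2 : {b | R (vl f b) η} = {b | R' (vl f b).toZFSet η.toZFSet} := by
        ext b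
        exact hRR _ _
      rw [h2]
    show (∃ w, w ∈ U ∧ ∀ b, (b ∈ w ↔ b ∈ K.ord.toZFSet ∧ ∃ d, ZFSet.pair b d ∈ f ∧
      R' d η.toZFSet)) ↔ os K.ord {b | R (vl f b) η} ∈ U
    rw [h1]
    constructor
    · rintro ⟨w, hw, h⟩
      have h3 := (w_eq hfun (fun d => R' d η.toZFSet) w).1 h
      rw [h3] at hw
      exact hw
    · intro h
      exact ⟨_, h, (w_eq hfun (fun d => R' d η.toZFSet) _).2 rfl⟩
  -- the set
  set D1 : ZFSet.{u} := os K.ord {c | ∀ η < c, (R c η ↔ η ∈ A)} with hD1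
  have hD1N : NV γ D1 := by
    refine nv_os hγ (P := fun z U f k => ∀ e, e ∈ z → (R' z e ↔ AAf R' k U f e)) ?_ hN hNf hNk
      fun b hb => ?_
    · refine DZ.all (R := fun e v => e ∈ v 0 → (R' (v 0) e ↔ AAf R' (v 3) (v 1) (v 2) e)) ?_
      -- 0 e, 1 z, 2 U, 3 f, 4 k
      refine (DZ.mem 0 1).imp ((hR'.ren fun n => if n = 0 then 1 else 0).iff ?_)
      exact (dz_AA hR').ren fun n =>
        if n = 0 then 4 else if n = 1 then 2 else if n = 2 then 3 else 0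
    · constructor
      · intro h e he
        obtain ⟨η, hη, rfl⟩ := mem_toZFSet_iff.1 he
        rw [hAA, ← hRR]
        exact h η hη
      · intro h η hη
        rw [← hAA, hRR]
        exact h _ (toZFSet_mem_toZFSet_iff.2 hη)
  refine ⟨A, D1, ?_, fun b hb η hη => (ord_mem_os.1 hb).2 η hη⟩
  refine mem_U1.2 ⟨os_sub, hD1N, ?_⟩
  by_contra hcon
  have hB0 : os K.ord {b | (vl f b).toZFSet ∈ D1}ᶜ ∈ U :=
    u_compl hU (nv_vl hγ hNf hfun (T := fun d x => d ∈ x) (DZ.mem 0 1) hD1N) hcon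
  -- the function
  set gf : Ordinal.{u} → Ordinal.{u} := fun b =>
    sInf {η | η < vl f b ∧ ¬ (R (vl f b) η ↔ η ∈ A)} with hgf
  have hgl : ∀ b, (gf b < vl f b ∧ ¬ (R (vl f b) (gf b) ↔ gf b ∈ A) ∧
      ∀ e < gf b, (R (vl f b) e ↔ e ∈ A)) ∨
      ((∀ e < vl f b, (R (vl f b) e ↔ e ∈ A)) ∧ gf b = 0) := fun b =>
    (least_iff (vl f b) (fun η => (R (vl f b) η ↔ η ∈ A)) (gf b)).1 rfl
  have hgk : ∀ b < K.ord, gf b < K.ord := by
    intro b hb
    rcases hgl b with h | h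
    · exact h.1.trans (vl_spec hfun hb).1
    · rw [h.2]
      exact hκ0
  set g : ZFSet.{u} := rs K.ord K.ord (fun b c => c = gf b) with hg
  have hgfun : ZFSet.IsFunc K.ord.toZFSet K.ord.toZFSet g := by
    refine ⟨fun z hz => ?_, fun z hz => ?_⟩
    · obtain ⟨a, ha, b, hb, -, rfl⟩ := mem_rs.1 hz
      exact ZFSet.pair_mem_prod.2 ⟨toZFSet_mem_toZFSet_iff.2 ha, toZFSet_mem_toZFSet_iff.2 hb⟩
    · obtain ⟨a, ha, rfl⟩ := mem_toZFSet_iff.1 hz
      refine ⟨(gf a).toZFSet, pair_mem_rs.2 ⟨ha, hgk a ha, rfl⟩, fun w hw => ?_⟩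
      obtain ⟨a', ha', c, hc, hc2, he⟩ := mem_rs.1 hw
      obtain ⟨h1, rfl⟩ := ZFSet.pair_injective he
      obtain rfl := toZFSet_injective h1
      rw [hc2]
  have hvg : ∀ b < K.ord, vl g b = gf b := by
    intro b hb
    have h1 : ZFSet.pair b.toZFSet (gf b).toZFSet ∈ g := pair_mem_rs.2 ⟨hb, hgk b hb, rfl⟩
    exact (toZFSet_injective (((vl_spec hgfun hb).2 _).1 h1)).symm
  have hgp : NF.ODp U g := by
    refine odp_comp hfp (Z := fun z f U => ∃ b c d, b ∈ K.ord.toZFSet ∧ ZFSet.pair b d ∈ f ∧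
      z = ZFSet.pair b c ∧
      ((c ∈ d ∧ ¬ (R' d c ↔ AAf R' K.ord.toZFSet U f c) ∧
          ∀ e, e ∈ c → (R' d e ↔ AAf R' K.ord.toZFSet U f e)) ∨
        ((∀ e, e ∈ d → (R' d e ↔ AAf R' K.ord.toZFSet U f e)) ∧ ∀ e, e ∉ c))) ?_ fun z => ?_
    · refine DZ.od (R := fun k v => ∃ b c d, b ∈ k ∧ ZFSet.pair b d ∈ v 1 ∧
        v 0 = ZFSet.pair b c ∧
        ((c ∈ d ∧ ¬ (R' d c ↔ AAf R' k (v 2) (v 1) c) ∧
            ∀ e, e ∈ c → (R' d e ↔ AAf R' k (v 2) (v 1) e)) ∨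
          ((∀ e, e ∈ d → (R' d e ↔ AAf R' k (v 2) (v 1) e)) ∧ ∀ e, e ∉ c))) (OD.ordinal K.ord) ?_
      -- 0 k, 1 z, 2 f, 3 U
      refine DZ.ex (R := fun b v => ∃ c d, b ∈ v 0 ∧ ZFSet.pair b d ∈ v 2 ∧
        v 1 = ZFSet.pair b c ∧
        ((c ∈ d ∧ ¬ (R' d c ↔ AAf R' (v 0) (v 3) (v 2) c) ∧
            ∀ e, e ∈ c → (R' d e ↔ AAf R' (v 0) (v 3) (v 2) e)) ∨
          ((∀ e, e ∈ d → (R' d e ↔ AAf R' (v 0) (v 3) (v 2) e)) ∧ ∀ e, e ∉ c))) ?_
      -- 0 b, 1 k, 2 z, 3 f, 4 U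
      refine DZ.ex (R := fun c v => ∃ d, v 0 ∈ v 1 ∧ ZFSet.pair (v 0) d ∈ v 3 ∧
        v 2 = ZFSet.pair (v 0) c ∧
        ((c ∈ d ∧ ¬ (R' d c ↔ AAf R' (v 1) (v 4) (v 3) c) ∧
            ∀ e, e ∈ c → (R' d e ↔ AAf R' (v 1) (v 4) (v 3) e)) ∨
          ((∀ e, e ∈ d → (R' d e ↔ AAf R' (v 1) (v 4) (v 3) e)) ∧ ∀ e, e ∉ c))) ?_
      -- 0 c, 1 b, 2 k, 3 z, 4 f, 5 U
      refine DZ.ex (R := fun d v => v 1 ∈ v 2 ∧ ZFSet.pair (v 1) d ∈ v 4 ∧
        v 3 = ZFSet.pair (v 1) (v 0) ∧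
        ((v 0 ∈ d ∧ ¬ (R' d (v 0) ↔ AAf R' (v 2) (v 5) (v 4) (v 0)) ∧
            ∀ e, e ∈ v 0 → (R' d e ↔ AAf R' (v 2) (v 5) (v 4) e)) ∨
          ((∀ e, e ∈ d → (R' d e ↔ AAf R' (v 2) (v 5) (v 4) e)) ∧ ∀ e, e ∉ v 0))) ?_
      -- 0 d, 1 c, 2 b, 3 k, 4 z, 5 f, 6 U
      refine (DZ.mem 2 3).and ((loc_pmem 2 0 5).dz.and ((loc_pair 4 2 1).dz.and (DZ.or ?_ ?_)))
      · refine (DZ.mem 1 0).and (DZ.and ?_ ?_)
        · refine DZ.not ((hR'.ren fun n => if n = 0 then 0 else 1).iff ?_)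
          exact (dz_AA hR').ren fun n =>
            if n = 0 then 3 else if n = 1 then 6 else if n = 2 then 5 else 1
        · refine DZ.all (R := fun e v => e ∈ v 1 → (R' (v 0) e ↔
            AAf R' (v 3) (v 6) (v 5) e)) ?_
          refine (DZ.mem 0 2).imp ((hR'.ren fun n => if n = 0 then 1 else 0).iff ?_)
          exact (dz_AA hR').ren fun n =>
            if n = 0 then 4 else if n = 1 then 7 else if n = 2 then 6 else 0
      · refine DZ.and ?_ ?_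
        · refine DZ.all (R := fun e v => e ∈ v 0 → (R' (v 0) e ↔
            AAf R' (v 3) (v 6) (v 5) e)) ?_
          refine (DZ.mem 0 1).imp ((hR'.ren fun n => if n = 0 then 1 else 0).iff ?_)
          exact (dz_AA hR').ren fun n =>
            if n = 0 then 4 else if n = 1 then 7 else if n = 2 then 6 else 0
        · exact DZ.all (R := fun e v => e ∉ v 1) (DZ.mem 0 2).not
    · rw [hg, mem_rs]
      constructor
      · rintro ⟨a, ha, c, hc, rfl, rfl⟩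
        refine ⟨_, _, (vl f a).toZFSet, toZFSet_mem_toZFSet_iff.2 ha,
          ((vl_spec hfun ha).2 _).2 rfl, rfl, ?_⟩
        rcases hgl a with ⟨h1, h2, h3⟩ | ⟨h1, h2⟩
        · refine Or.inl ⟨toZFSet_mem_toZFSet_iff.2 h1, ?_, fun e he => ?_⟩
          · rw [hAA, ← hRR]
            exact h2
          · obtain ⟨η, hη, rfl⟩ := mem_toZFSet_iff.1 he
            rw [hAA, ← hRR]
            exact h3 η hη
        · refine Or.inr ⟨fun e he => ?_, fun e he => ?_⟩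
          · obtain ⟨η, hη, rfl⟩ := mem_toZFSet_iff.1 he
            rw [hAA, ← hRR]
            exact h1 η hη
          · rw [h2] at he
            obtain ⟨η, hη, rfl⟩ := mem_toZFSet_iff.1 he
            exact absurd hη (not_lt.2 (zero_le))
      · rintro ⟨b, c, d, hb, hd, rfl, h⟩
        obtain ⟨a, ha, rfl⟩ := mem_toZFSet_iff.1 hb
        obtain rfl := ((vl_spec hfun ha).2 _).1 hd
        rcases h with ⟨h1, h2, h3⟩ | ⟨h1, h2⟩
        · obtain ⟨c, hc, rfl⟩ := mem_toZFSet_iff.1 h1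
          have h4 : c = gf a := by
            refine (least_iff (vl f a) (fun η => (R (vl f a) η ↔ η ∈ A)) c).2
              (Or.inl ⟨hc, ?_, fun e he => ?_⟩)
            · rw [hAA, ← hRR] at h2
              exact h2
            · have h5 := h3 _ (toZFSet_mem_toZFSet_iff.2 he)
              rw [hAA, ← hRR] at h5
              exact h5
          exact ⟨a, ha, c, hc.trans (vl_spec hfun ha).1, h4, rfl⟩
        · have h3 : c = (0 : Ordinal.{u}).toZFSet := by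
            ext e
            constructor
            · intro he
              exact absurd he (h2 e)
            · intro he
              obtain ⟨η, hη, rfl⟩ := mem_toZFSet_iff.1 he
              exact absurd hη (not_lt.2 (zero_le))
          rw [h3]
          refine ⟨a, ha, 0, hκ0, ?_, rfl⟩
          refine (least_iff (vl f a) (fun η => (R (vl f a) η ↔ η ∈ A)) 0).2
            (Or.inr ⟨fun e he => ?_, rfl⟩)
          have h5 := h1 _ (toZFSet_mem_toZFSet_iff.2 he)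
          rw [hAA, ← hRR] at h5
          exact h5
  have hNg : NV γ g := nv_fun hγ hN hgp hgfun
  -- the points at which the function is less
  have hbad : ∀ b < K.ord, b ∈ {b | (vl f b).toZFSet ∈ D1}ᶜ →
      gf b < vl f b ∧ ¬ (R (vl f b) (gf b) ↔ gf b ∈ A) := by
    intro b hb hbB
    rcases hgl b with ⟨h1, h2, -⟩ | ⟨h1, -⟩
    · exact ⟨h1, h2⟩
    · have h3 : (vl f b).toZFSet ∈ os K.ord {c | ∀ η < c, (R c η ↔ η ∈ A)} :=
        ord_mem_os.2 ⟨(vl_spec hfun hb).1, h1⟩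
      exact absurd h3 hbB
  have hlt : LTf K.ord U g f := by
    unfold LTf
    rw [lt_eq hfun hgfun]
    refine u_mono hU hB0 ?_ fun b hb hbB => ?_
    · refine nv_os hγ (P := fun z g f _ => ∃ c, ZFSet.pair z c ∈ g ∧ ∃ d, ZFSet.pair z d ∈ f ∧
        c ∈ d) ?_ hNg hNf hNf fun b hb => ?_
      · refine DZ.ex (R := fun c v => ZFSet.pair (v 0) c ∈ v 1 ∧ ∃ d, ZFSet.pair (v 0) d ∈ v 2 ∧
          c ∈ d) ?_
        refine (loc_pmem 1 0 2).dz.and ?_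
        refine DZ.ex (R := fun d v => ZFSet.pair (v 1) d ∈ v 3 ∧ v 0 ∈ d) ?_
        exact (loc_pmem 2 0 4).dz.and (DZ.mem 1 0)
      · constructor
        · intro h
          exact ⟨_, ((vl_spec hgfun hb).2 _).2 rfl, _, ((vl_spec hfun hb).2 _).2 rfl,
            toZFSet_mem_toZFSet_iff.2 h⟩
        · rintro ⟨c, hc, d, hd, h⟩
          obtain rfl := ((vl_spec hgfun hb).2 _).1 hc
          obtain rfl := ((vl_spec hfun hb).2 _).1 hd
          exact toZFSet_mem_toZFSet_iff.1 h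
    · show vl g b < vl f b
      rw [hvg b hb]
      exact (hbad b hb hbB).1
  -- the function is bounded at almost all points
  obtain ⟨c, hc, hcU⟩ : ∃ c < K.ord, os K.ord {b | c < vl g b} ∉ U := by
    by_contra hn
    refine hmin g ⟨hgp, hgfun, fun c hc => ?_⟩ hlt
    rw [ub_eq hgfun]
    by_contra hc2
    exact hn ⟨c, hc, hc2⟩
  -- the function is constant at almost all points
  obtain ⟨η0, hη0⟩ : ∃ η0, os K.ord {b | vl g b = η0} ∈ U := by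
    by_contra hn
    have hn2 : ∀ η, os K.ord {b | vl g b = η} ∉ U := fun η h => hn ⟨η, h⟩
    have hNe : ∀ η : Ordinal.{u}, NV γ (os K.ord {b | vl g b = η}) := by
      intro η
      have h1 : {b | vl g b = η} = {b | (vl g b).toZFSet = η.toZFSet} := by
        ext b
        exact ⟨fun h => congrArg _ h, fun h => toZFSet_injective h⟩
      rw [h1]
      exact nv_vl hγ hNg hgfun (T := fun d p => d = p) (DZ.eq 0 1) (nv_ord hγ η)
    have hC : ∀ η, os K.ord {b | vl g b = η}ᶜ ∈ U := fun η => u_compl hU (hNe η) (hn2 η)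
    set H : ZFSet.{u} := ZFSet.sep (fun z => ∃ η : Ordinal.{u},
      z = ZFSet.pair η.toZFSet (os K.ord {b | vl g b = η}ᶜ))
      (ZFSet.prod (succ c).toZFSet U) with hH
    have mem_H : ∀ z, z ∈ H ↔ ∃ η < succ c, z = ZFSet.pair η.toZFSet
        (os K.ord {b | vl g b = η}ᶜ) := by
      intro z
      rw [hH, ZFSet.mem_sep]
      constructor
      · rintro ⟨h1, η, rfl⟩
        exact ⟨η, toZFSet_mem_toZFSet_iff.1 (ZFSet.pair_mem_prod.1 h1).1, rfl⟩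
      · rintro ⟨η, hη, rfl⟩
        exact ⟨ZFSet.pair_mem_prod.2 ⟨toZFSet_mem_toZFSet_iff.2 hη, hC η⟩, η, rfl⟩
    have hHf : ZFSet.IsFunc (succ c).toZFSet U H := by
      refine ⟨fun z hz => (ZFSet.mem_sep.1 hz).1, fun z hz => ?_⟩
      obtain ⟨η, hη, rfl⟩ := mem_toZFSet_iff.1 hz
      refine ⟨_, (mem_H _).2 ⟨η, hη, rfl⟩, fun w hw => ?_⟩
      obtain ⟨η', hη', he⟩ := (mem_H _).1 hw
      obtain ⟨h1, rfl⟩ := ZFSet.pair_injective he
      obtain rfl := toZFSet_injective h1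
      rfl
    have hcompl : ∀ η b : Ordinal.{u}, b < K.ord →
        (¬ ZFSet.pair b.toZFSet η.toZFSet ∈ g ↔ b ∈ {b | vl g b = η}ᶜ) := by
      intro η b hb
      rw [(vl_spec hgfun hb).2, mem_compl_iff, mem_ofPred_eq]
      exact not_congr ⟨fun h => (toZFSet_injective h).symm, fun h => by rw [h]⟩
    have hHN : NV γ H := by
      refine nv_of hγ (P := fun z g k s => ∃ e w, e ∈ s ∧ z = ZFSet.pair e w ∧
        ∀ b, (b ∈ w ↔ b ∈ k ∧ ¬ ZFSet.pair b e ∈ g)) ?_ hNg hNk (nv_ord hγ (succ c))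
        (fun z => ?_) fun z hz => ?_
      · refine DZ.ex (R := fun e v => ∃ w, e ∈ v 3 ∧ v 0 = ZFSet.pair e w ∧
          ∀ b, (b ∈ w ↔ b ∈ v 2 ∧ ¬ ZFSet.pair b e ∈ v 1)) ?_
        refine DZ.ex (R := fun w v => v 0 ∈ v 4 ∧ v 1 = ZFSet.pair (v 0) w ∧
          ∀ b, (b ∈ w ↔ b ∈ v 3 ∧ ¬ ZFSet.pair b (v 0) ∈ v 2)) ?_
        -- 0 w, 1 e, 2 z, 3 g, 4 k, 5 s
        refine (DZ.mem 1 5).and ((loc_pair 2 1 0).dz.and ?_)
        refine DZ.all (R := fun b v => (b ∈ v 0 ↔ b ∈ v 4 ∧ ¬ ZFSet.pair b (v 1) ∈ v 3)) ?_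
        -- 0 b, 1 w, 2 e, 3 z, 4 g, 5 k
        exact (DZ.mem 0 1).iff ((DZ.mem 0 5).and (loc_pmem 0 2 4).dz.not)
      · rw [mem_H]
        constructor
        · rintro ⟨η, hη, rfl⟩
          refine ⟨_, _, toZFSet_mem_toZFSet_iff.2 hη, rfl, fun z => ?_⟩
          rw [mem_os]
          constructor
          · rintro ⟨b, hb, hbS, rfl⟩
            exact ⟨toZFSet_mem_toZFSet_iff.2 hb, (hcompl η b hb).2 hbS⟩
          · rintro ⟨hz, hz2⟩
            obtain ⟨b, hb, rfl⟩ := mem_toZFSet_iff.1 hz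
            exact ⟨b, hb, (hcompl η b hb).1 hz2, rfl⟩
        · rintro ⟨e, w, he, rfl, hw⟩
          obtain ⟨η, hη, rfl⟩ := mem_toZFSet_iff.1 he
          refine ⟨η, hη, ?_⟩
          have h1 : w = os K.ord {b | vl g b = η}ᶜ := by
            ext z
            rw [hw z, mem_os]
            constructor
            · rintro ⟨hz, hz2⟩
              obtain ⟨b, hb, rfl⟩ := mem_toZFSet_iff.1 hz
              exact ⟨b, hb, (hcompl η b hb).1 hz2, rfl⟩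
            · rintro ⟨b, hb, hbS, rfl⟩
              exact ⟨toZFSet_mem_toZFSet_iff.2 hb, (hcompl η b hb).2 hbS⟩
          rw [h1]
      · obtain ⟨η, hη, rfl⟩ := (mem_H z).1 hz
        exact nv_pair hγ (nv_ord hγ η) (nv_tra _ hN _ (hC η))
    have h1 := hU.compl (succ c) (hlim.succ_lt hc) H hHN hHf
    apply hcU
    have h2 : (K.ord.toZFSet).sep (fun b => ∀ a x, ZFSet.pair a x ∈ H → b ∈ x) =
        os K.ord {b | c < vl g b} := by
      ext z
      rw [ZFSet.mem_sep, mem_os]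
      constructor
      · rintro ⟨hz, h⟩
        obtain ⟨b, hb, rfl⟩ := mem_toZFSet_iff.1 hz
        refine ⟨b, hb, ?_, rfl⟩
        show c < vl g b
        by_contra hle
        have h3 := h _ _ ((mem_H _).2 ⟨vl g b, lt_succ_iff.2 (not_lt.1 hle), rfl⟩)
        exact (ord_mem_os.1 h3).2 rfl
      · rintro ⟨b, hb, hbS, rfl⟩
        refine ⟨toZFSet_mem_toZFSet_iff.2 hb, fun a x hx => ?_⟩
        obtain ⟨η, hη, he⟩ := (mem_H _).1 hx
        obtain ⟨rfl, rfl⟩ := ZFSet.pair_injective he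
        refine ord_mem_os.2 ⟨hb, ?_⟩
        intro h4
        have h5 : c < vl g b := hbS
        have h6 : vl g b = η := h4
        rw [h6] at h5
        exact absurd (lt_succ_iff.1 hη) (not_le.2 h5)
    rw [← h2]
    exact h1
  have hI := inter _ _ hη0 hB0
  by_cases hη : η0 ∈ A
  · obtain ⟨b, hb, ⟨hb1, hb2⟩, hb3⟩ := nonem _ (inter _ _ hI hη)
    have h1 : gf b = η0 := (hvg b hb).symm.trans hb1
    have h2 := (hbad b hb hb2).2
    rw [h1] at h2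
    exact h2 ⟨fun _ => hη, fun _ => hb3⟩
  · have h3 : {b | R (vl f b) η0} = {b | R' (vl f b).toZFSet η0.toZFSet} := by
      ext b
      exact hRR _ _
    have h4 : NV γ (os K.ord {b | R (vl f b) η0}) := by
      rw [h3]
      exact nv_vl hγ hNf hfun (T := R') hR' (nv_ord hγ η0)
    obtain ⟨b, hb, ⟨hb1, hb2⟩, hb3⟩ := nonem _ (inter _ _ hI (u_compl hU h4 hη))
    have h1 : gf b = η0 := (hvg b hb).symm.trans hb1
    have h2 := (hbad b hb hb2).2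
    rw [h1] at h2
    exact h2 ⟨fun h => absurd h hb3, fun h => absurd h hη⟩

end Pool.Agent.H50.HV.DM

namespace Pool.Agent.H50.HV

open _root_.HD HD.PRK HD.HV HD.HW

/-- DM. The image of the measure under the minimal function. -/
theorem pf_DM (_h0 : T_PVA.{u}) (h1 : T_NM2.{u}) (h2 : T_MIF.{u}) : _root_.HD.HV.T_DM.{u} := by
  intro γ hγ K _ hK0 U hU
  obtain ⟨f, hf, hmin⟩ := h2 γ hγ K hK0 U hU
  exact ⟨DM.U1 γ K.ord U f, DM.cm_U1 h1 hγ hK0 hU hf, fun R hR =>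
    DM.dgn_U1 h1 hγ hK0 hU hf hmin hR⟩

end Pool.Agent.H50.HV
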