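import Pool.Agent.H97.HV.Targets

/-!
# MP_e37c09_lc, HV, module MEA: an atom gives a normal measure of HOD(V_ γ)
-/

open Ordinal Cardinal Order Set
open scoped ZFSet

universe u

namespace Pool.Agent.H50.HV

open _root_.HD HD.PRK HD.HV

/-- the set of ordinals of `x` -/
def S (x : ZFSet.{u}) : Set Ordinal.{u} := {a | a.toZFSet ∈ x}

theorem mem_S {x : ZFSet.{u}} {a : Ordinal.{u}} : a ∈ S x ↔ a.toZFSet ∈ x := Iff.rfl

theorem mem_US {γ μ κ : Ordinal.{u}} {s x : ZFSet.{u}} :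
    x ∈ US γ μ κ s ↔ x ⊆ κ.toZFSet ∧ NV γ x ∧ ¬ Pos μ κ (S s \ S x) := by
  unfold US
  rw [ZFSet.mem_sep, ZFSet.mem_powerset]
  rfl

/-- a set which is definable from one set with parameters in `V_ γ` -/
theorem pv_of (hP : T_PVA.{u}) {γ : Ordinal.{u}} (hγ : IsSuccLimit γ) {p z : ZFSet.{u}}
    (hp : PV γ p) {Q : (ℕ → ZFSet.{u}) → Prop} (hQ : DZ Q)
    (h : ∀ y, Q (cons y fun _ => p) ↔ y = z) : PV γ z := by
  refine hP.2.2.1 γ hγ p p z hp hp (Pool.Agent.H45.NF.ODp.of_dz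
    (Q := fun v => ∃ a, v 1 = ZFSet.pair a a ∧ Q (cons (v 0) fun _ => a)) ?_ fun y => ?_)
  · refine DZ.ex (R := fun a v => v 1 = ZFSet.pair a a ∧ Q (cons (v 0) fun _ => a)) ?_
    refine (loc_pair 2 0 0).dz.and ?_
    refine (hQ.ren fun n => Nat.casesOn n 1 fun _ => 0).congr fun v => ?_
    have h2 : (fun n => v (Nat.casesOn n 1 fun _ => 0)) = cons (v 1) fun _ => v 0 := by
      funext n
      cases n <;> rfl
    rw [h2]
  · constructor
    · rintro ⟨a, ha, hQa⟩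
      have ha' : ZFSet.pair p p = ZFSet.pair a a := ha
      obtain ⟨rfl, -⟩ := ZFSet.pair_injective ha'
      exact (h y).1 hQa
    · rintro rfl
      exact ⟨p, rfl, (h _).2 rfl⟩

theorem pf_MEA (h0 : T_PVA.{u}) (h1 : T_DEC.{u}) (h2 : T_MIN.{u}) : T_MEA.{u} := by
  intro en hen M K hK hK0 c hc γ hγ
  have hVA : T_VA.{u} := _root_.HD.All.va
  have hVB : T_VB.{u} := _root_.HD.All.vb
  have hcof : ℵ₀ < K.ord.cof := by
    rw [hK.cof_ord]
    exact hK0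
  have hlim : IsSuccLimit K.ord := by
    rw [← Ordinal.one_lt_cof_iff]
    exact (Cardinal.one_lt_aleph0).trans hcof
  have hγ0 : 0 < γ := hγ.lim.bot_lt
  have hE : S (en c) = E en c := rfl
  have hnv : ∀ {x : ZFSet.{u}}, NV γ x → PV γ x := fun hx => ZFSet.Hereditarily.self hx
  -- a subset of `κ` defined from `f`
  have hsub : ∀ (f : ZFSet.{u}) (P : ZFSet.{u} → ZFSet.{u} → Prop), PV γ f →
      (DZ fun v => P (v 0) (v 1)) → PV γ ((K.ord.toZFSet).sep (fun b => P b f)) := by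
    intro f P hf hP
    refine pv_of h0 hγ.lim hf (Q := fun v => ∀ b, b ∈ v 0 ↔ b ∈ K.ord.toZFSet ∧ P b (v 1))
      ?_ fun y => ?_
    · refine DZ.all (R := fun b v => b ∈ v 0 ↔ b ∈ K.ord.toZFSet ∧ P b (v 1)) ?_
      refine (DZ.mem 0 1).iff (DZ.and ?_ ?_)
      · exact DZ.od (R := fun a v => v 0 ∈ a) (OD.ordinal K.ord) (DZ.mem 1 0)
      · exact hP.ren fun n => Nat.casesOn n 0 fun _ => 2
    · constructor
      · intro hy
        ext b
        rw [ZFSet.mem_sep]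
        exact hy b
      · rintro rfl b
        show b ∈ ZFSet.sep (fun b => P b f) K.ord.toZFSet ↔ b ∈ K.ord.toZFSet ∧ P b f
        rw [ZFSet.mem_sep]
  have hsubN : ∀ (f : ZFSet.{u}) (P : ZFSet.{u} → ZFSet.{u} → Prop), PV γ f →
      (DZ fun v => P (v 0) (v 1)) → NV γ ((K.ord.toZFSet).sep (fun b => P b f)) := by
    intro f P hf hP
    exact h0.2.2.2.2 γ K.ord _ hγ0 (fun z hz => (ZFSet.mem_sep.1 hz).1) (hsub f P hf hP)
  refine ⟨?_, ?_, ?_, ?_, ?_, ?_, ?_⟩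
  · -- inN
    exact h2 γ M.ord K.ord (en c) hγ0 ((hen.od _).2 ⟨c, rfl⟩)
  · -- sub
    intro x hx
    exact (mem_US.1 hx).1
  · -- ultra
    intro x hx hxα
    constructor
    · intro h3 h4
      rw [mem_US] at h3 h4
      refine null_union hVA hcof h3.2.2 h4.2.2 (hc.pos.mono fun b hb hbE _ => ?_)
      by_cases hbx : b ∈ S x
      · refine Or.inr ⟨hbE, fun h5 => ?_⟩
        exact (ZFSet.mem_sdiff.1 (mem_S.1 h5)).2 (mem_S.1 hbx)
      · exact Or.inl ⟨hbE, hbx⟩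
    · intro h3
      refine mem_US.2 ⟨hxα, hx, ?_⟩
      have h4 : NV γ (K.ord.toZFSet \ x) := by
        have h5 := hsubN x (fun b f => b ∉ f) (hnv hx) (DZ.mem 0 1).not
        have h6 : (K.ord.toZFSet).sep (fun b => b ∉ x) = K.ord.toZFSet \ x := by
          ext b
          rw [ZFSet.mem_sep, ZFSet.mem_sdiff]
        rwa [h6] at h5
      have h5 : Pos M.ord K.ord (S (en c) \ S (K.ord.toZFSet \ x)) := by
        by_contra h6
        exact h3 (mem_US.2 ⟨fun z hz => (ZFSet.mem_sdiff.1 hz).1, h4, h6⟩)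
      intro h6
      refine h1 en hen M K hK hK0 c hc γ hγ x (hnv hx)
        ⟨h5.mono fun b hb hbE _ => ⟨hbE.1, ?_⟩, h6⟩
      by_contra hbx
      exact hbE.2 (ZFSet.mem_sdiff.2 ⟨toZFSet_mem_toZFSet_iff.2 hb, hbx⟩)
  · -- up
    intro x hx y hy hxy hyα
    rw [mem_US] at hx ⊢
    refine ⟨hyα, hy, fun h3 => hx.2.2 (h3.mono fun b _ hb _ => ⟨hb.1, fun h4 => ?_⟩)⟩
    exact hb.2 (mem_S.2 (hxy (mem_S.1 h4)))
  · -- nonpr
    intro a ha h3
    rw [mem_US] at h3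
    refine null_union hVA hcof h3.2.2 (hVB M.ord K.ord (succ a) hlim (hlim.succ_lt ha))
      (hc.pos.mono fun b hb hbE _ => ?_)
    by_cases hba : b = a
    · exact Or.inr (by rw [hba]; exact lt_succ a)
    · refine Or.inl ⟨hbE, fun h4 => hba ?_⟩
      exact toZFSet_injective (ZFSet.mem_singleton.1 h4)
  · -- compl
    intro τ hτ f hf hfn
    refine mem_US.2 ⟨fun z hz => (ZFSet.mem_sep.1 hz).1, ?_, fun h4 => ?_⟩
    · refine hsubN f (fun b f => ∀ a x, ZFSet.pair a x ∈ f → b ∈ x) (hnv hf) ?_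
      refine DZ.all (R := fun a v => ∀ x, ZFSet.pair a x ∈ v 1 → v 0 ∈ x) ?_
      refine DZ.all (R := fun x v => ZFSet.pair (v 0) x ∈ v 2 → v 1 ∈ x) ?_
      exact (loc_pmem 1 0 3).dz.imp (DZ.mem 2 0)
    · have hτc : τ.card < K.ord.cof := by
        rw [hK.cof_ord]
        exact Cardinal.lt_ord.1 hτ
      refine hVA M.ord K.ord hcof τ hτc
        (fun i => {b | b ∈ S (en c) ∧ ∃ x, ZFSet.pair i.toZFSet x ∈ f ∧ b.toZFSet ∉ x})
        (fun i hi h5 => ?_) (h4.mono fun b hb hbE _ => ?_)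
      · obtain ⟨x, hx, hx'⟩ := hfn.2 i.toZFSet (toZFSet_mem_toZFSet_iff.2 hi)
        have hxU : x ∈ US γ M.ord K.ord (en c) := (ZFSet.pair_mem_prod.1 (hfn.1 hx)).2
        rw [mem_US] at hxU
        refine hxU.2.2 (h5.mono fun b hb hbE _ => ⟨hbE.1, fun h6 => ?_⟩)
        obtain ⟨x', hx1, hx2⟩ := hbE.2
        rw [hx' x' hx1] at hx2
        exact hx2 h6
      · by_contra hcon
        refine hbE.2 (mem_S.2 (ZFSet.mem_sep.2 ⟨toZFSet_mem_toZFSet_iff.2 hb,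
          fun a x hp => ?_⟩))
        by_contra hbx
        have hp' := ZFSet.pair_mem_prod.1 (hfn.1 hp)
        obtain ⟨a, ha', rfl⟩ := mem_toZFSet_iff.1 hp'.1
        exact hcon ⟨a, ha', hbE.1, x, hp, hbx⟩
  · -- normal
    intro f hf hfn
    refine mem_US.2 ⟨fun z hz => (ZFSet.mem_sep.1 hz).1, ?_, fun h4 => ?_⟩
    · refine hsubN f (fun b f => ∀ a x, a ∈ b → ZFSet.pair a x ∈ f → b ∈ x) (hnv hf) ?_
      refine DZ.all (R := fun a v => ∀ x, a ∈ v 0 → ZFSet.pair a x ∈ v 1 → v 0 ∈ x) ?_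
      refine DZ.all (R := fun x v => v 0 ∈ v 1 → ZFSet.pair (v 0) x ∈ v 2 → v 1 ∈ x) ?_
      exact (DZ.mem 1 2).imp ((loc_pmem 1 0 3).dz.imp (DZ.mem 2 0))
    · classical
      let h : Ordinal.{u} → Ordinal.{u} := fun b =>
        if hb : ∃ a < b, ∃ x, ZFSet.pair a.toZFSet x ∈ f ∧ b.toZFSet ∉ x
        then Classical.choose hb else 0
      have hspec : ∀ b : Ordinal.{u}, (∃ a < b, ∃ x, ZFSet.pair a.toZFSet x ∈ f ∧
          b.toZFSet ∉ x) → h b < b ∧ ∃ x, ZFSet.pair (h b).toZFSet x ∈ f ∧ b.toZFSet ∉ x := by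
        intro b hb
        have : h b = Classical.choose hb := dif_pos hb
        rw [this]
        exact Classical.choose_spec hb
      have hpos : Pos M.ord K.ord {b | b ∈ S (en c) ∧ ∃ a < b, ∃ x,
          ZFSet.pair a.toZFSet x ∈ f ∧ b.toZFSet ∉ x} := by
        refine h4.mono fun b hb hbE _ => ⟨hbE.1, ?_⟩
        by_contra hcon
        refine hbE.2 (mem_S.2 (ZFSet.mem_sep.2 ⟨toZFSet_mem_toZFSet_iff.2 hb,
          fun a x hab hp => ?_⟩))
        by_contra hbx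
        obtain ⟨a, ha', rfl⟩ := mem_toZFSet_iff.1 hab
        exact hcon ⟨a, ha', x, hp, hbx⟩
      obtain ⟨a, ha, hp⟩ := _root_.HD.All.vd M.ord K hK hK0 _ h hpos
        (fun b hb _ _ => (hspec b hb.2).1)
      obtain ⟨x, hx, hx'⟩ := hfn.2 a.toZFSet (toZFSet_mem_toZFSet_iff.2 ha)
      have hxU : x ∈ US γ M.ord K.ord (en c) := (ZFSet.pair_mem_prod.1 (hfn.1 hx)).2
      rw [mem_US] at hxU
      refine hxU.2.2 (hp.mono ?_)
      rintro b _ ⟨⟨hb1, hb2⟩, rfl⟩ _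
      refine ⟨hb1, fun h6 => ?_⟩
      obtain ⟨x', hx1, hx2⟩ := (hspec b hb2).2
      rw [hx' x' hx1] at hx2
      exact hx2 h6

end Pool.Agent.H50.HV
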