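import Pool.Agent.H97.HV.Targets2
import Pool.Agent.H97.HV.Asm

/-!
# MP_e37c09_lc, HV part 2, module NBV: the second case
-/

open Ordinal Cardinal Order Set
open scoped ZFSet

universe u

namespace Pool.Agent.H50.HV.NB

open _root_.HD HD.PRK HD.HV

theorem dzQ {Q : (ℕ → ZFSet.{u}) → Prop} (hQ : DZ Q) (i j k : ℕ) :
    DZ fun v => Q (cons (v i) fun _ => ZFSet.pair (v j) (v k)) := by
  refine (DZ.ex (R := fun p v => p = ZFSet.pair (v j) (v k) ∧ Q (cons (v i) fun _ => p)) ?_).congr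
    fun v => ?_
  · refine (loc_pair 0 (j + 1) (k + 1)).dz.and ?_
    refine (hQ.ren fun n => Nat.casesOn n (i + 1) fun _ => 0).congr fun v => ?_
    have h2 : (fun n => v (Nat.casesOn n (i + 1) fun _ => 0)) = cons (v (i + 1)) fun _ => v 0 := by
      funext n
      cases n <;> rfl
    rw [h2]
  · constructor
    · intro h
      exact ⟨_, rfl, h⟩
    · rintro ⟨p, rfl, h⟩
      exact h

/-- the set of all pairs `(k, a)` in `m × V_ l` such that `k` is in the set defined from `(x, a)` -/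
noncomputable def RR (Q : (ℕ → ZFSet.{u}) → Prop) (m l : Ordinal.{u}) (x : ZFSet.{u}) :
    ZFSet.{u} :=
  ZFSet.sep (fun z => ∃ k a B, z = ZFSet.pair k a ∧ k ∈ B ∧
    ∀ y, Q (cons y fun _ => ZFSet.pair x a) ↔ y = B) (ZFSet.prod m.toZFSet (V_ l))

theorem mem_RR {Q : (ℕ → ZFSet.{u}) → Prop} {m l : Ordinal.{u}} {x z : ZFSet.{u}} :
    z ∈ RR Q m l x ↔ ∃ k a B, k ∈ m.toZFSet ∧ a ∈ V_ l ∧ z = ZFSet.pair k a ∧ k ∈ B ∧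
      ∀ y, Q (cons y fun _ => ZFSet.pair x a) ↔ y = B := by
  unfold RR
  rw [ZFSet.mem_sep]
  constructor
  · rintro ⟨h1, k, a, B, rfl, h2, h3⟩
    rw [ZFSet.pair_mem_prod] at h1
    exact ⟨k, a, B, h1.1, h1.2, rfl, h2, h3⟩
  · rintro ⟨k, a, B, h1, h2, rfl, h3, h4⟩
    exact ⟨ZFSet.pair_mem_prod.2 ⟨h1, h2⟩, k, a, B, rfl, h3, h4⟩

theorem odp_RR {Q : (ℕ → ZFSet.{u}) → Prop} (hQ : DZ Q) (m l : Ordinal.{u}) (x : ZFSet.{u}) :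
    NF.ODp x (RR Q m l x) := by
  refine Pool.Agent.H45.NF.ODp.of_dz (Q := fun v => ∀ z, z ∈ v 0 ↔ ∃ k a B, k ∈ m.toZFSet ∧
    a ∈ V_ l ∧ z = ZFSet.pair k a ∧ k ∈ B ∧
      ∀ y, Q (cons y fun _ => ZFSet.pair (v 1) a) ↔ y = B) ?_ fun y => ?_
  · refine DZ.od (R := fun M v => ∀ z, z ∈ v 0 ↔ ∃ k a B, k ∈ M ∧
      a ∈ V_ l ∧ z = ZFSet.pair k a ∧ k ∈ B ∧
        ∀ y, Q (cons y fun _ => ZFSet.pair (v 1) a) ↔ y = B) (OD.ordinal m) ?_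
    refine DZ.od (R := fun L v => ∀ z, z ∈ v 1 ↔ ∃ k a B, k ∈ v 0 ∧
      a ∈ L ∧ z = ZFSet.pair k a ∧ k ∈ B ∧
        ∀ y, Q (cons y fun _ => ZFSet.pair (v 2) a) ↔ y = B) (NF.od_V l) ?_
    -- 0 L, 1 M, 2 y, 3 x
    refine DZ.all (R := fun z v => z ∈ v 2 ↔ ∃ k a B, k ∈ v 1 ∧
      a ∈ v 0 ∧ z = ZFSet.pair k a ∧ k ∈ B ∧
        ∀ y, Q (cons y fun _ => ZFSet.pair (v 3) a) ↔ y = B) ?_
    refine (DZ.mem 0 3).iff ?_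
    -- 0 z, 1 L, 2 M, 3 y, 4 x
    refine DZ.ex (R := fun k v => ∃ a B, k ∈ v 2 ∧
      a ∈ v 1 ∧ v 0 = ZFSet.pair k a ∧ k ∈ B ∧
        ∀ y, Q (cons y fun _ => ZFSet.pair (v 4) a) ↔ y = B) ?_
    refine DZ.ex (R := fun a v => ∃ B, v 0 ∈ v 3 ∧
      a ∈ v 2 ∧ v 1 = ZFSet.pair (v 0) a ∧ v 0 ∈ B ∧
        ∀ y, Q (cons y fun _ => ZFSet.pair (v 5) a) ↔ y = B) ?_
    refine DZ.ex (R := fun B v => v 1 ∈ v 4 ∧
      v 0 ∈ v 3 ∧ v 2 = ZFSet.pair (v 1) (v 0) ∧ v 1 ∈ B ∧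
        ∀ y, Q (cons y fun _ => ZFSet.pair (v 6) (v 0)) ↔ y = B) ?_
    -- 0 B, 1 a, 2 k, 3 z, 4 L, 5 M, 6 y, 7 x
    refine (DZ.mem 2 5).and ((DZ.mem 1 4).and ((loc_pair 3 2 1).dz.and ((DZ.mem 2 0).and ?_)))
    refine DZ.all (R := fun y v => Q (cons y fun _ => ZFSet.pair (v 7) (v 1)) ↔ y = v 0) ?_
    exact (dzQ hQ 0 8 2).iff (DZ.eq 0 1)
  · constructor
    · intro h
      ext z
      rw [mem_RR]
      exact h z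
    · rintro rfl z
      exact mem_RR

/-- the sections at `a` of the elements of `Z` -/
noncomputable def ZZ (m : Ordinal.{u}) (Z a : ZFSet.{u}) : ZFSet.{u} :=
  ZFSet.sep (fun S => ∃ R, R ∈ Z ∧ ∀ k, k ∈ S ↔ k ∈ m.toZFSet ∧ ZFSet.pair k a ∈ R)
    (ZFSet.powerset m.toZFSet)

theorem mem_ZZ {m : Ordinal.{u}} {Z a S : ZFSet.{u}} : S ∈ ZZ m Z a ↔
    ∃ R, R ∈ Z ∧ ∀ k, k ∈ S ↔ k ∈ m.toZFSet ∧ ZFSet.pair k a ∈ R := by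
  unfold ZZ
  rw [ZFSet.mem_sep, ZFSet.mem_powerset]
  constructor
  · rintro ⟨-, h⟩
    exact h
  · rintro ⟨R, h1, h2⟩
    exact ⟨fun k hk => ((h2 k).1 hk).1, R, h1, h2⟩

theorem odp_ZZ (m : Ordinal.{u}) {Z : ZFSet.{u}} (hZ : OD Z) (a : ZFSet.{u}) :
    NF.ODp a (ZZ m Z a) := by
  refine Pool.Agent.H45.NF.ODp.of_dz (Q := fun v => ∀ S, S ∈ v 0 ↔ ∃ R, R ∈ Z ∧
    ∀ k, k ∈ S ↔ k ∈ m.toZFSet ∧ ZFSet.pair k (v 1) ∈ R) ?_ fun y => ?_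
  · refine DZ.od (R := fun M v => ∀ S, S ∈ v 0 ↔ ∃ R, R ∈ Z ∧
      ∀ k, k ∈ S ↔ k ∈ M ∧ ZFSet.pair k (v 1) ∈ R) (OD.ordinal m) ?_
    refine DZ.od (R := fun Z v => ∀ S, S ∈ v 1 ↔ ∃ R, R ∈ Z ∧
      ∀ k, k ∈ S ↔ k ∈ v 0 ∧ ZFSet.pair k (v 2) ∈ R) hZ ?_
    -- 0 Z, 1 M, 2 y, 3 a
    refine DZ.all (R := fun S v => S ∈ v 2 ↔ ∃ R, R ∈ v 0 ∧
      ∀ k, k ∈ S ↔ k ∈ v 1 ∧ ZFSet.pair k (v 3) ∈ R) ?_
    refine (DZ.mem 0 3).iff ?_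
    -- 0 S, 1 Z, 2 M, 3 y, 4 a
    refine DZ.ex (R := fun R v => R ∈ v 1 ∧
      ∀ k, k ∈ v 0 ↔ k ∈ v 2 ∧ ZFSet.pair k (v 4) ∈ R) ?_
    -- 0 R, 1 S, 2 Z, 3 M, 4 y, 5 a
    refine (DZ.mem 0 2).and ?_
    refine DZ.all (R := fun k v => k ∈ v 1 ↔ k ∈ v 3 ∧ ZFSet.pair k (v 5) ∈ v 0) ?_
    exact (DZ.mem 0 2).iff ((DZ.mem 0 4).and (loc_pmem 0 6 1).dz)
  · constructor
    · intro h
      ext z
      rw [mem_ZZ]
      exact h z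
    · rintro rfl z
      exact mem_ZZ

theorem sz_ZZ {m : Ordinal.{u}} {Z a : ZFSet.{u}} {ν : Cardinal.{u}} (h : NF.Sz ν Z) :
    NF.Sz ν (ZZ m Z a) := by
  obtain ⟨e, he⟩ := h
  refine ⟨fun i => ZFSet.sep (fun k => ZFSet.pair k a ∈ e i) m.toZFSet, fun S hS => ?_⟩
  obtain ⟨R, hR, h2⟩ := mem_ZZ.1 hS
  obtain ⟨i, hi, rfl⟩ := he R hR
  refine ⟨i, hi, ?_⟩
  ext k
  rw [ZFSet.mem_sep]
  exact h2 k

end Pool.Agent.H50.HV.NB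

namespace Pool.Agent.H50.HV

open _root_.HD HD.PRK HD.HV

theorem pf_NBV (h0 : T_PVA.{u}) (h1 : T_NVL.{u}) (h2 : T_SMV.{u}) : T_NBV.{u} := by
  intro δ hδ hA K hK hδK γ hγ hδγ
  obtain ⟨D, hD, hDr, hDs, hD0⟩ := Pool.Agent.H97.HV.base hδ
  have hK0 : ℵ₀ < K := by
    rw [hD] at hδK
    exact hD0.trans (Cardinal.ord_lt_ord.1 hδK)
  have hcof : ℵ₀ < K.ord.cof := by
    rw [hK.cof_ord]
    exact hK0
  have hcl : ∀ l : Ordinal.{u}, ∃ C, Clb K.ord C ∧ (l < γ → ∀ x, Sml δ K.ord C x →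
      ∀ R, RegV l x R → NF.ODp x R →
        ∃ Z, OD Z ∧ R ∈ Z ∧ ∃ ν : Cardinal.{u}, ν.ord < δ ∧ NF.Sz ν Z) := by
    intro l
    by_cases hl : l < γ
    · obtain ⟨C, hC, h3⟩ := h1 δ hδ hA K hK hδK l (hγ.few (succ l) (hγ.lim.succ_lt hl))
      exact ⟨C, hC, fun _ => h3⟩
    · exact ⟨{b | δ < b}, Pool.Agent.H97.PRK.clb_gt hK0.le hδK, fun h => absurd h hl⟩
  choose Cl hCl hCl2 using hcl
  have hd1 := Pool.Agent.H33.HD.VD.diag hK hK0 Cl fun a _ => hCl a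
  have hd2 := HD.All.ve K hK hK0 (fun a => succ a) fun a ha =>
    (Cardinal.isSuccLimit_ord hK0.le).succ_lt ha
  have hd3 := Pool.Agent.H97.PRK.clb_gt hK0.le hδK
  refine ⟨_, HD.All.ci K.ord _ _ hcof (HD.All.ci K.ord _ _ hcof hd1 hd2) hd3, ?_⟩
  intro x hx m hm hmin B hB a ha hBp
  obtain ⟨m', hm1, ⟨⟨⟨-, hm2⟩, hm3, hm4⟩, hm5⟩, -, hm6⟩ := hx.mem _ hm
  obtain rfl : m = m' := toZFSet_injective hm6
  have hmlim : IsSuccLimit m :=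
    ⟨not_isMin_of_lt hm3, Order.isSuccPrelimit_of_succ_lt hm4⟩
  have hlim : IsSuccLimit (min γ m) := by
    rcases min_choice γ m with h | h
    · rw [h]
      exact hγ.lim
    · rw [h]
      exact hmlim
  have har : a.rank < min γ m := ZFSet.mem_vonNeumann.1 ha
  have hl : succ a.rank < min γ m := hlim.succ_lt har
  have hlγ : succ a.rank < γ := hl.trans_le (min_le_left _ _)
  have hlm : succ a.rank < m := hl.trans_le (min_le_right _ _)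
  have hal : a ∈ V_ (succ a.rank) := ZFSet.mem_vonNeumann.2 (lt_succ _)
  have hxl : Sml δ K.ord (Cl (succ a.rank)) x := by
    refine ⟨hx.ne, fun z hz => ?_, hx.few⟩
    obtain ⟨b, hb1, ⟨⟨⟨-, hb2⟩, -⟩, -⟩, hb3, rfl⟩ := hx.mem z hz
    exact ⟨b, hb1, hb2 _ (hlm.trans_le (hmin b hz)), hb3, rfl⟩
  obtain ⟨Q, hQ, hQ2⟩ := Pool.Agent.H45.NF.ODp.def hBp
  have hreg : RegV (succ a.rank) x (NB.RR Q m (succ a.rank) x) := by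
    intro z hz
    obtain ⟨k, a1, B1, hk, ha1, rfl, -, -⟩ := NB.mem_RR.1 hz
    obtain ⟨k, hk', rfl⟩ := mem_toZFSet_iff.1 hk
    refine ⟨k, a1, rfl, ha1, fun b hb => ?_⟩
    obtain ⟨b, hb1, -, hb3, rfl⟩ := hx.mem b hb
    exact toZFSet_mem_toZFSet_iff.2 (hk'.trans_le (hmin b hb))
  obtain ⟨Z, hZ, hRZ, ν, hν, hsz⟩ := hCl2 _ hlγ x hxl _ hreg (NB.odp_RR hQ m _ x)
  have hBZ : B ∈ NB.ZZ m Z a := by
    refine NB.mem_ZZ.2 ⟨_, hRZ, fun k => ⟨fun hk => ⟨hB hk, ?_⟩, fun hk => ?_⟩⟩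
    · exact NB.mem_RR.2 ⟨k, a, B, hB hk, hal, rfl, hk, hQ2⟩
    · obtain ⟨k', a1, B1, -, -, h3, h4, h5⟩ := NB.mem_RR.1 hk.2
      obtain ⟨rfl, rfl⟩ := ZFSet.pair_injective h3
      have h6 : B1 = B := (hQ2 B1).1 ((h5 B1).2 rfl)
      rw [← h6]
      exact h4
  have hνD : ν < D := by
    rw [hD] at hν
    exact Cardinal.ord_lt_ord.1 hν
  obtain ⟨b, hb, hab⟩ := h2 D hDr hDs hD0 m a (NB.ZZ m Z a) (NB.odp_ZZ m hZ a)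
    (fun S hS k hk => by
      obtain ⟨R, -, h3⟩ := NB.mem_ZZ.1 hS
      exact ((h3 k).1 hk).1) ⟨ν, hνD, NB.sz_ZZ hsz⟩ B hBZ
  have hbV : b ∈ V_ (min γ m) := by
    refine ZFSet.mem_vonNeumann.2 ((ZFSet.mem_vonNeumann.1 hb).trans_le ?_)
    rw [← hD]
    exact le_min hδγ (le_of_lt hm5)
  exact h0.2.2.1 _ hlim a b B (h0.2.1 _ hlim a ha).self (h0.2.1 _ hlim b hbV).self hab

end Pool.Agent.H50.HV
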